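import Pool.Agent.Run7.h333.CZ.CfFld

/-!
# Colmez's product formula for CM fields with a doubly transitive maximal real subfield

`E` is a CM field, `E⁺` its maximal real subfield, of degree `n` over `ℚ`, and `K` is a CM field, Galois
over `ℚ`, which contains the conjugates of `E`.  The notions `act`, `IsCMType`, `a0` (Colmez's function
`a⁰_{E,ψ,Φ}`), `heightFn` (`A_Φ = ∑_{ψ ∈ Φ} a⁰_{E,ψ,Φ}`) and `avgSpan` (the span of `1` and of the sums of
the `A_Φ` over all CM types of a field, for which the product formula is the averaged formula of
Andreatta, Goren, Howard, Madapusi Pera and of Yuan, Zhang) are those of the starting file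
`AveragedAndAbelian`.

The theorem: let the Galois group be doubly transitive on the embeddings of `E⁺`; the quadratic
extension `E/E⁺` is arbitrary.
(1) If `n` is odd, or if `n` is `2` modulo `4`, `n ≠ 2` and `n - 1` is a square, then `a⁰_{E,ψ,Φ}` is in
`avgSpan` for ALL CM types `Φ` of `E` and all `ψ`.
(2) If `n` is not `2` modulo `4`, or if `n - 1` is a square, then `A_Φ` is in `avgSpan` for ALL CM types
`Φ` of `E`: Colmez's formula for the Faltings height holds for all CM types of `E`.

The remaining cases are real exceptions: for a prime power `q` which is `3` modulo `4` let `X` be the set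
of the nonzero vectors of the plane over the field with `q` elements up to squares, with the action of
`SL₂(q)` and `c = -1`; here `n = q + 1` and the functions `a⁰` involve the characters with values
`(± 1 ± √(-q)) / 2`, while the heights do not.  If `q` is `1` modulo `4` and not a square, the
analogous action of `SL₂(q)` and of the scalars gives an example for the degrees `q + 1`, which are
`2` modulo `4`, for which neither is in `avgSpan`.

The proof.  Let `X` be the set of the `2 n` embeddings of `E` and `c` the complex conjugation.  If for all
`y ≠ x, c x` some element of the group fixes `x` and maps `y` to `c y`, the functions are in `avgSpan` since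
the numbers of conjugates of `g` which map `x` to `y` and to `c y` are the same.  Otherwise there is a
matrix `S` with entries `± 1` off the pairs `{x, c x}`, which commutes with the group, is odd in
both arguments and symmetric or skew, and `S ^ 2 = ε (n - 1) (1 - c) + b S` up to a factor, where `ε` is
`1` or `- 1`.  If `b ≠ 0` the trace of `S` shows that the discriminant is a square, so the odd functions on
`X` are the sum of two irreducible representations with rational characters, and the character criterion
of the file `RationalCharacters` applies.  If `b = 0` then `S` gives a conference matrix of order `n`, so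
`n` is even, `n` is `2` modulo `4` if it is symmetric and `n` is divisible by `4` (or `n = 2`) if
it is skew.  In the skew case the two characters are conjugate and the functions of the heights only
involve their sum.
-/

set_option autoImplicit false

open NumberField
open Pool.Agent.Results.MP_a2beea_nt.AveragedAndAbelian

namespace Pool.Agent.Results.MP_a2beea_nt.DoublyTransitive

/-- `Gal(K/ℚ)` is doubly transitive on the set of the embeddings of the maximal real subfield of `E`. -/
def IsDoublyTransitive (E K : Type) [Field E] [NumberField E] [Field K] [NumberField K] : Prop :=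
  ∀ f₁ f₂ f₁' f₂' : maximalRealSubfield E →ₐ[ℚ] K, f₁ ≠ f₂ → f₁' ≠ f₂' →
    ∃ g : K ≃ₐ[ℚ] K, act g f₁ = f₁' ∧ act g f₂ = f₂'

/-- **Main result.**  CM fields `E` whose maximal real subfield has a doubly transitive Galois group. -/
theorem result (E : Type) [Field E] [NumberField E] [IsCMField E]
    (K : Type) [Field K] [NumberField K] [IsGalois ℚ K] [IsCMField K]
    (hE : Nonempty (E →ₐ[ℚ] K)) (hD : IsDoublyTransitive E K) (n : ℕ)
    (hn : Module.finrank ℚ (maximalRealSubfield E) = n) :
    ((Odd n ∨ (n % 4 = 2 ∧ n ≠ 2 ∧ ∃ r : ℕ, n = r ^ 2 + 1)) →
      ∀ Φ : Finset (E →ₐ[ℚ] K), IsCMType Φ → ∀ ψ : E →ₐ[ℚ] K, a0 ψ Φ ∈ avgSpan K) ∧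
    ((n % 4 ≠ 2 ∨ ∃ r : ℕ, n = r ^ 2 + 1) →
      ∀ Φ : Finset (E →ₐ[ℚ] K), IsCMType Φ → heightFn Φ ∈ avgSpan K) := by
  subst hn
  exact ⟨fun h _ hΦ ψ => Pool.Agent.Run7.h333.CZ.fld_dbl_a0 hD h hΦ ψ,
    fun h _ hΦ => Pool.Agent.Run7.h333.CZ.fld_dbl_T hE hD h hΦ⟩

end Pool.Agent.Results.MP_a2beea_nt.DoublyTransitive
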