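import Pool.Agent.Run7.h333.CZ.PrimeMain

/-!
# Colmez's product formula for CM fields of degree `2 p`

`E` is a CM field of degree `2 p` over `ℚ`, where `p` is an odd prime number: its maximal real subfield
`E⁺` has degree `p` over `ℚ`, and is arbitrary.  `K` is a CM field, Galois over `ℚ`, which contains the
conjugates of `E`.  The notions `conjugation`, `act`, `IsCMType`, `a0` (Colmez's function
`a⁰_{E,ψ,Φ}`), `heightFn` (`A_Φ = ∑_{ψ ∈ Φ} a⁰_{E,ψ,Φ}`), `avgSpan` (the span of `1` and of the sums of
the `A_Φ` over all CM types of a field, for which the formula is the averaged formula of Andreatta,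
Goren, Howard, Madapusi Pera and of Yuan, Zhang) and `abSpan` (the span of the `a⁰_{F,ψ,Φ}` of the
abelian fields `F`, for which the formula is the theorem of Colmez and Obus) are those of the starting
file `AveragedAndAbelian`.

(1) If `E` has no quadratic subfield, then `a⁰_{E,ψ,Φ}` is in `avgSpan` for ALL CM types `Φ` of `E` and
all `ψ`: the formula holds for all CM types of `E`.
(2) If `E` has a quadratic subfield `k` (it is imaginary, since `p` is odd, and `E = k E⁺`), then
  - `a⁰_{E,ψ,Φ}` is in `avgSpan` for all `Φ`, `ψ` if and only if the Galois group is doubly transitive on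
    the `p` embeddings of `E⁺`;
  - `A_Φ` (Faltings heights) is in `avgSpan` for all `Φ` if and only if the Galois group is transitive on
    the sets of two embeddings of `E⁺`;
  - `a⁰_{E,ψ,Φ}` is in the span of `avgSpan` and `abSpan` for all `Φ`, `ψ` if and only if the Galois group
    is doubly transitive on the embeddings of `E⁺` or `E` is abelian over `ℚ`;
  - `A_Φ` is in this span for all `Φ` if and only if the Galois group is transitive on the sets of two
    embeddings of `E⁺` or `E` is abelian over `ℚ`.

So it is known exactly for which CM fields of degree `2 p` the formula for all CM types follows from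
the averaged formula and from the abelian case.  By Burnside's theorem on transitive groups of prime
degree (not used here) the exceptions are the fields `k E⁺` for which the Galois group of the closure of
`E⁺` is a semidirect product of cyclic groups of orders `p` and `d`, where `d > 1` is a proper divisor of
`p - 1`; for the heights also `d = (p - 1) / 2` is not an exception if `p` is `3` modulo `4`.

The proof.  Let `G` be the Galois group of `K` and `X` the set of the `2 p` embeddings.  If `θ ≠ ψ, c ψ`
and no element of `G` fixes `ψ` and maps `θ` to `c θ`, the signed adjacency matrix of the orbit of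
`(ψ, θ)` commutes with `G`; an element of `G` permutes the `p` pairs `{x, c x}` cyclically, and the
matrix is a circulant in the corresponding coordinates.  A half-system `U` which is invariant under this
element is an eigenvector, and so are its translates; since the roots of unity of order `p` satisfy
only one linear relation over `ℚ`, the translates are `± U`, and `E` has a quadratic subfield.  In (1) all
such pairs `ψ`, `θ` are therefore separated, and the theorem follows from the starting file on fields
with few automorphisms.  In (2) one evaluates the numbers of conjugates of `g` which map `ψ` to `θ` at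
the powers of an element which permutes the pairs cyclically.
-/

set_option autoImplicit false

open NumberField
open Pool.Agent.Results.MP_a2beea_nt.AveragedAndAbelian

namespace Pool.Agent.Results.MP_a2beea_nt.PrimeDimension

/-- `Gal(K/ℚ)` is doubly transitive on the set of the embeddings of the maximal real subfield of `E`. -/
def DoublyTransitive (E K : Type) [Field E] [NumberField E] [Field K] [NumberField K] : Prop :=
  ∀ f₁ f₂ f₁' f₂' : maximalRealSubfield E →ₐ[ℚ] K, f₁ ≠ f₂ → f₁' ≠ f₂' →
    ∃ g : K ≃ₐ[ℚ] K, act g f₁ = f₁' ∧ act g f₂ = f₂'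

/-- `Gal(K/ℚ)` is transitive on the set of the sets `{f₁, f₂}` of two embeddings of the maximal real
subfield of `E`. -/
def DoublyHomogeneous (E K : Type) [Field E] [NumberField E] [Field K] [NumberField K] : Prop :=
  ∀ f₁ f₂ f₁' f₂' : maximalRealSubfield E →ₐ[ℚ] K, f₁ ≠ f₂ → f₁' ≠ f₂' →
    ∃ g : K ≃ₐ[ℚ] K, (act g f₁ = f₁' ∧ act g f₂ = f₂') ∨ (act g f₁ = f₂' ∧ act g f₂ = f₁')

/-- **Main result.**  CM fields `E` whose maximal real subfield has odd prime degree over `ℚ`. -/
theorem result (E : Type) [Field E] [NumberField E] [IsCMField E]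
    (K : Type) [Field K] [NumberField K] [IsGalois ℚ K] [IsCMField K]
    (hE : Nonempty (E →ₐ[ℚ] K)) (hp : (Module.finrank ℚ (maximalRealSubfield E)).Prime)
    (hp2 : Module.finrank ℚ (maximalRealSubfield E) ≠ 2) :
    ((∀ k : IntermediateField ℚ E, Module.finrank ℚ k ≠ 2) →
      ∀ Φ : Finset (E →ₐ[ℚ] K), IsCMType Φ → ∀ ψ : E →ₐ[ℚ] K, a0 ψ Φ ∈ avgSpan K) ∧
    ((∃ k : IntermediateField ℚ E, Module.finrank ℚ k = 2) →
      ((∀ Φ : Finset (E →ₐ[ℚ] K), IsCMType Φ → ∀ ψ : E →ₐ[ℚ] K, a0 ψ Φ ∈ avgSpan K) ↔
        DoublyTransitive E K) ∧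
      ((∀ Φ : Finset (E →ₐ[ℚ] K), IsCMType Φ → heightFn Φ ∈ avgSpan K) ↔
        DoublyHomogeneous E K) ∧
      ((∀ Φ : Finset (E →ₐ[ℚ] K), IsCMType Φ →
          ∀ ψ : E →ₐ[ℚ] K, a0 ψ Φ ∈ avgSpan K ⊔ abSpan K) ↔
        (DoublyTransitive E K ∨ IsAbelianGalois ℚ E)) ∧
      ((∀ Φ : Finset (E →ₐ[ℚ] K), IsCMType Φ → heightFn Φ ∈ avgSpan K ⊔ abSpan K) ↔
        (DoublyHomogeneous E K ∨ IsAbelianGalois ℚ E))) :=
  ⟨fun hno _ hΦ ψ => Pool.Agent.Run7.h333.CZ.prime_no_quad hp hp2 hno hΦ ψ,
    fun hq => Pool.Agent.Run7.h333.CZ.prime_quad hE hp hp2 hq⟩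

end Pool.Agent.Results.MP_a2beea_nt.PrimeDimension
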