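import Pool.Agent.Run7.h333.CZ.Crit2
import Pool.Agent.Run7.h333.CZ.PrimeMain

/-!
# Colmez's product formula and the rationality of characters: an exact criterion for every CM field

`E` is any CM field, `K` a CM field, Galois over `ℚ`, which contains the conjugates of `E`.  The notions
`conjugation`, `act`, `IsCMType`, `a0` (Colmez's function `a⁰_{E,ψ,Φ}`), `heightFn`
(`A_Φ = ∑_{ψ ∈ Φ} a⁰_{E,ψ,Φ}`), `avgSpan` (the span of `1` and of the sums of the `A_Φ` over all CM
types of a field, for which the formula is the averaged formula of Andreatta, Goren, Howard, Madapusi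
Pera and of Yuan, Zhang) and `abSpan` (the span of the `a⁰_{F,ψ,Φ}` of the abelian fields `F`, for which
the formula is the theorem of Colmez and Obus) are those of the starting file `AveragedAndAbelian`.

The odd characters of `E` are the characters `χ` of the irreducible complex representations of
`Gal(K/ℚ)` on which complex conjugation acts as `-1` and which contain a nonzero vector fixed by the
subgroup `Gal(K/ψ(E))`; in other words, the odd irreducible Artin characters which occur in the
permutation character of the set `H_E` of the embeddings of `E`, those whose Artin `L`-functions are the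
factors of `ζ_E(s) / ζ_{E⁺}(s)`.

* `a⁰_{E,ψ,Φ}` is in `avgSpan` for ALL CM types `Φ` of `E` and all `ψ` if and only if the odd characters
  of `E` have rational values.
* `A_Φ` (Faltings heights) is in `avgSpan` for all CM types `Φ` of `E` if and only if the real parts of
  the odd characters of `E` have rational values.
* `a⁰_{E,ψ,Φ}` is in the span of `avgSpan` and `abSpan` for all `Φ` and all `ψ` if and only if every odd
  character of `E` has rational values or is linear (`χ(1) = 1`).
* `A_Φ` is in this span for all `Φ` if and only if every odd character of `E` is linear or has real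
  parts with rational values.

So for every CM field it is known exactly whether the formula for all its CM types follows from the
averaged formula and from the abelian case.  The starting file on fields with few automorphisms has
such a criterion under the hypothesis that linked embeddings have the same image; here there is no
hypothesis.

The proof.  The conditions on all functions `a⁰_{E,ψ,Φ}` amount to the same conditions on the functions
`δ(g) = #{η : η⁻¹ g η ψ = θ} - #{η : η⁻¹ g η ψ = c θ}`, for two embeddings `ψ`, `θ`.  A linear combination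
of the values of `δ` is a matrix coefficient of a central operator on the space of the odd functions on
`H_E`; by Schur's lemma this operator is a scalar on each irreducible constituent, and the scalar is the
corresponding combination of the values of the character, up to a factor.  The values of a character at
the powers of `g` are conjugate over `ℚ`, and a nonlinear irreducible character has sum zero on the
cosets of the commutator subgroup.
-/

set_option autoImplicit false

open NumberField
open Pool.Agent.Results.MP_a2beea_nt.AveragedAndAbelian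

namespace Pool.Agent.Results.MP_a2beea_nt.RationalCharacters

variable {E K : Type} [Field E] [NumberField E] [Field K] [NumberField K] [IsCMField K]

/-- `χ` is an odd character of `E`: the character of an irreducible complex representation `ρ` of
`Gal(K/ℚ)` on which complex conjugation acts as `-1` and for which there is a nonzero vector fixed by all
`g` with `g ψ = ψ`. -/
def IsOddCharacter (ψ : E →ₐ[ℚ] K) (χ : (K ≃ₐ[ℚ] K) → ℂ) : Prop :=
  ∃ (W : Type) (_ : AddCommGroup W) (_ : Module ℂ W) (_ : FiniteDimensional ℂ W)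
    (ρ : Representation ℂ (K ≃ₐ[ℚ] K) W), ρ.IsIrreducible ∧ (∀ w, ρ (conjugation K) w = -w) ∧
      (∃ w : W, w ≠ 0 ∧ ∀ g, act g ψ = ψ → ρ g w = w) ∧ ∀ g, χ g = LinearMap.trace ℂ W (ρ g)

/-- **Main result.**  `E` is a CM field, `ψ` an embedding of `E` into the CM field `K`, Galois over
`ℚ`. -/
theorem result (E : Type) [Field E] [NumberField E] [IsCMField E]
    (K : Type) [Field K] [NumberField K] [IsGalois ℚ K] [IsCMField K] (ψ : E →ₐ[ℚ] K) :
    ((∀ Φ : Finset (E →ₐ[ℚ] K), IsCMType Φ → ∀ θ : E →ₐ[ℚ] K, a0 θ Φ ∈ avgSpan K) ↔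
      ∀ χ, IsOddCharacter ψ χ → ∀ g, ∃ q : ℚ, χ g = q) ∧
    ((∀ Φ : Finset (E →ₐ[ℚ] K), IsCMType Φ → heightFn Φ ∈ avgSpan K) ↔
      ∀ χ, IsOddCharacter ψ χ → ∀ g, ∃ q : ℚ, (χ g).re = q) ∧
    ((∀ Φ : Finset (E →ₐ[ℚ] K), IsCMType Φ →
        ∀ θ : E →ₐ[ℚ] K, a0 θ Φ ∈ avgSpan K ⊔ abSpan K) ↔
      ∀ χ, IsOddCharacter ψ χ → ((∀ g, ∃ q : ℚ, χ g = q) ∨ χ 1 = 1)) ∧
    ((∀ Φ : Finset (E →ₐ[ℚ] K), IsCMType Φ → heightFn Φ ∈ avgSpan K ⊔ abSpan K) ↔
      ∀ χ, IsOddCharacter ψ χ → ((∀ g, ∃ q : ℚ, (χ g).re = q) ∨ χ 1 = 1)) := by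
  have hcc : conjugation K * conjugation K = 1 := Pool.Agent.Q11.CZ.conj_mul_self
  refine ⟨?_, ?_, ?_, ?_⟩
  · refine Iff.trans ?_ (Pool.Agent.Run7.h333.CZ.crit_a0 (c := conjugation K)
      Pool.Agent.Q11.CZ.conj_comm hcc Pool.Agent.N770.CP.conj_free ψ)
    exact ⟨fun h Φ hΦ x => (Pool.Agent.Run7.h333.CZ.mem_avg_iff x hΦ).mp (h Φ hΦ x),
      fun h Φ hΦ x => (Pool.Agent.Run7.h333.CZ.mem_avg_iff x hΦ).mpr (h Φ hΦ x)⟩
  · refine Iff.trans ?_ (Pool.Agent.Run7.h333.CZ.crit_T (c := conjugation K)
      Pool.Agent.Q11.CZ.conj_comm hcc Pool.Agent.N770.CP.conj_free ψ)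
    exact ⟨fun h Φ hΦ => (Pool.Agent.Run7.h333.CZ.height_avg_iff hΦ).mp (h Φ hΦ),
      fun h Φ hΦ => (Pool.Agent.Run7.h333.CZ.height_avg_iff hΦ).mpr (h Φ hΦ)⟩
  · refine Iff.trans ?_ (Pool.Agent.Run7.h333.CZ.crit_a0' (c := conjugation K)
      Pool.Agent.Q11.CZ.conj_comm hcc Pool.Agent.N770.CP.conj_free ψ)
    exact ⟨fun h Φ hΦ x => (Pool.Agent.Run7.h333.CZ.mem_sup_iff x hΦ).mp (h Φ hΦ x),
      fun h Φ hΦ x => (Pool.Agent.Run7.h333.CZ.mem_sup_iff x hΦ).mpr (h Φ hΦ x)⟩
  · refine Iff.trans ?_ (Pool.Agent.Run7.h333.CZ.crit_T' (c := conjugation K)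
      Pool.Agent.Q11.CZ.conj_comm hcc Pool.Agent.N770.CP.conj_free ψ)
    exact ⟨fun h Φ hΦ => (Pool.Agent.Run7.h333.CZ.height_sup_iff hΦ).mp (h Φ hΦ),
      fun h Φ hΦ => (Pool.Agent.Run7.h333.CZ.height_sup_iff hΦ).mpr (h Φ hΦ)⟩

end Pool.Agent.Results.MP_a2beea_nt.RationalCharacters
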