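import Pool.Agent.Run7.h333.CZ.CfFld

/-!
# Colmez's product formula for CM fields with a triply transitive maximal real subfield

`E` is a CM field, `E⁺` its maximal real subfield, of degree `n ≥ 3` over `ℚ`, and `K` is a CM field,
Galois over `ℚ`, which contains the conjugates of `E`.  The notions `act`, `IsCMType`, `a0` (Colmez's
function `a⁰_{E,ψ,Φ}`) and `avgSpan` (the span of `1` and of the sums of the `A_Φ` over all CM types of a
field, for which the product formula is the averaged formula of Andreatta, Goren, Howard, Madapusi Pera
and of Yuan, Zhang) are those of the starting file `AveragedAndAbelian`.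

The theorem: if the Galois group is transitive on the ordered triples of distinct embeddings of `E⁺`,
then `a⁰_{E,ψ,Φ}` is in `avgSpan` for ALL CM types `Φ` of `E` and all `ψ`: Colmez's formula holds for all
CM types of `E`, without any assumption on the quadratic extension `E/E⁺`.  This includes all CM
fields `E` for which the Galois group of the closure of `E⁺` is the symmetric group of degree `n ≥ 3`,
the alternating group of degree `n ≥ 5`, the group `PGL₂(q)` of degree `q + 1`, a Mathieu group or the
full affine group of a vector space over the field with two elements.

The proof.  Let `X` be the set of the `2 n` embeddings of `E` and `c` the complex conjugation.  If for all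
`y ≠ x, c x` some element of the group fixes `x` and maps `y` to `c y`, the functions are in `avgSpan` since
the numbers of conjugates of `g` which map `x` to `y` and to `c y` are the same.  Otherwise there is a
matrix `S` with entries `± 1` off the pairs `{x, c x}`, which commutes with the group, is odd in
both arguments and symmetric or skew.  By triple transitivity the product `S(x,y) S(y,z) S(z,x)` has the
same value for all triples from different pairs, so `S` is symmetric and satisfies a quadratic equation with
rational roots, and the odd functions on `X` are the sum of two different irreducible representations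
with rational characters.  By the character criterion of the file `RationalCharacters` the functions
`a⁰_{E,ψ,Φ}` are in `avgSpan`.
-/

set_option autoImplicit false

open NumberField
open Pool.Agent.Results.MP_a2beea_nt.AveragedAndAbelian

namespace Pool.Agent.Results.MP_a2beea_nt.TriplyTransitive

/-- `Gal(K/ℚ)` is triply transitive on the set of the embeddings of the maximal real subfield of `E`. -/
def IsTriplyTransitive (E K : Type) [Field E] [NumberField E] [Field K] [NumberField K] : Prop :=
  ∀ f₁ f₂ f₃ f₁' f₂' f₃' : maximalRealSubfield E →ₐ[ℚ] K,
    f₁ ≠ f₂ → f₁ ≠ f₃ → f₂ ≠ f₃ → f₁' ≠ f₂' → f₁' ≠ f₃' → f₂' ≠ f₃' →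
    ∃ g : K ≃ₐ[ℚ] K, act g f₁ = f₁' ∧ act g f₂ = f₂' ∧ act g f₃ = f₃'

/-- **Main result.**  CM fields `E` whose maximal real subfield has degree at least `3` and a triply
transitive Galois group. -/
theorem result (E : Type) [Field E] [NumberField E] [IsCMField E]
    (K : Type) [Field K] [NumberField K] [IsGalois ℚ K] [IsCMField K]
    (hn : 3 ≤ Module.finrank ℚ (maximalRealSubfield E)) (hT : IsTriplyTransitive E K)
    (Φ : Finset (E →ₐ[ℚ] K)) (hΦ : IsCMType Φ) (ψ : E →ₐ[ℚ] K) : a0 ψ Φ ∈ avgSpan K :=
  Pool.Agent.Run7.h333.CZ.fld_trp hn hT hΦ ψ

end Pool.Agent.Results.MP_a2beea_nt.TriplyTransitive
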